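import Pool.Agent.E8helper34.Sep.Final

/-!
# Separator exponent versus expansion exponent: `c* = 1`

The set `A` of the problem and all notions it uses (`GraphClass`, `GraphClass.Monotone`,
`IsBalancedSeparator`, `GraphClass.HasSeparators`, `IsDepthMinor`, `avgDegree`,
`GraphClass.ExpansionBoundedBy`) are defined in `Pool.Agent.E8helper34.Sep.Defs`.

* Lower bound (`one_le_of_mem`): the class of the subgraphs of the `2 r`-times subdivided complete
  graphs on `m ≤ r ^ (1 / δ - 1)` vertices has balanced separators of order `O(n ^ (1 - δ))`, and
  `K_m` is a depth-`r` minor.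
* Upper bound (`upper`): a monotone class with balanced separators of order `O(n ^ (1 - δ))`,
  `0 < δ < 1`, has expansion `O(r ^ (1 / δ - 1))`.
-/

set_option autoImplicit false

namespace Pool.Agent.Results.MP_2f3b43_co.ExponentOneH34

open Pool.Agent.E8helper34.Sep

/-- **`c* = 1`.** The set `A` of the problem is exactly `[1, ∞)`; in particular its infimum is
`1`. -/
theorem result : A = Set.Ici 1 ∧ sInf A = 1 := by
  refine ⟨A_eq, ?_⟩
  rw [A_eq, csInf_Ici]

end Pool.Agent.Results.MP_2f3b43_co.ExponentOneH34
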